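import Pool.Agent.Lib.MP_8a8b2f_an.Main

set_option autoImplicit false

open MeasureTheory Set Filter Topology
open scoped ENNReal NNReal InnerProductSpace BoundedContinuousFunction

noncomputable section

namespace Pool.Agent.Lib.MP_8a8b2f_an

lemma tendsto_T_bcf (g : ℝ →ᵇ ℂ) :
    Tendsto (fun h : ℝ => T h (BoundedContinuousFunction.toLp 2 nu ℂ g)) (𝓝[≥] 0)
      (𝓝 (BoundedContinuousFunction.toLp 2 nu ℂ g)) := by
  set G : H := BoundedContinuousFunction.toLp 2 nu ℂ g with hG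
  have hGc : G =ᵐ[nu] g := BoundedContinuousFunction.coeFn_toLp (p := 2) (𝕜 := ℂ) nu g
  rw [tendsto_iff_norm_sub_tendsto_zero]
  have key : Tendsto (fun h : ℝ => ∫ x, ‖sh h g x - g x‖ ^ 2 ∂nu) (𝓝[≥] 0) (𝓝 0) := by
    have h0 : ∫ x, (0 : ℝ) ∂nu = 0 := by simp
    have hmain : Tendsto (fun h : ℝ => ∫ x, ‖sh h g x - g x‖ ^ 2 ∂nu) (𝓝[≥] 0)
        (𝓝 (∫ x, (0 : ℝ) ∂nu)) := ?_
    · rwa [h0] at hmain
    refine tendsto_integral_filter_of_dominated_convergence (fun _ => (2 * ‖g‖) ^ 2) ?_ ?_ ?_ ?_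
    · refine Eventually.of_forall fun h => ?_
      have hm : Measurable (sh h g) :=
        (g.continuous.measurable.comp (measurable_shift h)).indicator measurableSet_Ioi
      have hg := g.continuous.measurable
      exact ((hm.sub hg).norm.pow_const 2).aestronglyMeasurable
    · refine Eventually.of_forall fun h => Eventually.of_forall fun x => ?_
      rw [norm_pow, norm_norm]
      have hs : ‖sh h g x‖ ≤ ‖g‖ := by
        unfold sh indicator
        split_ifs
        · exact g.norm_coe_le_norm _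
        · simp
      have : ‖sh h g x - g x‖ ≤ 2 * ‖g‖ :=
        (norm_sub_le _ _).trans (by linarith [g.norm_coe_le_norm x])
      exact pow_le_pow_left₀ (norm_nonneg _) this 2
    · exact integrable_const _
    · filter_upwards [ae_pos] with x hx
      have h1 : Tendsto (fun h : ℝ => ‖g (x - h) - g x‖ ^ 2) (𝓝[≥] 0) (𝓝 (‖g (x - 0) - g x‖ ^ 2)) := by
        apply tendsto_nhdsWithin_of_tendsto_nhds
        apply Continuous.tendsto
        have := g.continuous
        fun_prop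
      rw [sub_zero, sub_self, norm_zero, zero_pow two_ne_zero] at h1
      refine h1.congr' ?_
      have : ∀ᶠ h : ℝ in 𝓝[≥] 0, h < x :=
        (eventually_lt_nhds hx).filter_mono nhdsWithin_le_nhds
      filter_upwards [this] with h hh
      simp [sh, indicator, hh]
  have h2 : (fun h : ℝ => ‖T h G - G‖) =ᶠ[𝓝[≥] 0]
      (fun h => Real.sqrt (∫ x, ‖sh h g x - g x‖ ^ 2 ∂nu)) := by
    filter_upwards [self_mem_nhdsWithin] with h hh
    rw [← Real.sqrt_sq (norm_nonneg (T h G - G)), norm_sq_eq]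
    congr 1
    apply integral_congr_ae
    filter_upwards [Lp.coeFn_sub (T h G) G, coeFn_T hh G, sh_congr hh hGc, hGc] with x e1 e2 e3 e4
    rw [e1, Pi.sub_apply, e2, e3, e4]
  have h3 := (Real.continuous_sqrt.tendsto 0).comp key
  rw [Real.sqrt_zero] at h3
  exact h3.congr' h2.symm

lemma tendsto_T (f : H) : Tendsto (fun h : ℝ => T h f) (𝓝[≥] 0) (𝓝 f) := by
  rw [Metric.tendsto_nhds]
  intro ε hε
  have hd : DenseRange (BoundedContinuousFunction.toLp (E := ℂ) 2 nu ℂ : (ℝ →ᵇ ℂ) → H) :=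
    BoundedContinuousFunction.toLp_denseRange ℂ nu ℂ (by norm_num)
  obtain ⟨g, hg⟩ := hd.exists_dist_lt f (by positivity : 0 < ε / 3)
  set G : H := BoundedContinuousFunction.toLp 2 nu ℂ g
  have h1 := (Metric.tendsto_nhds.1 (tendsto_T_bcf g)) (ε / 3) (by positivity)
  filter_upwards [h1] with h hh
  have h2 : dist (T h f) (T h G) ≤ dist f G := by
    rw [dist_eq_norm, ← map_sub, dist_eq_norm]
    exact norm_T_apply_le h _
  calc dist (T h f) f ≤ dist (T h f) (T h G) + dist (T h G) G + dist G f :=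
        dist_triangle4 _ _ _ _
    _ < ε := by
        rw [dist_comm G f]
        linarith

lemma norm_T_sub_le {s t : ℝ} (hs : 0 ≤ s) (ht : 0 ≤ t) (f : H) :
    ‖T s f - T t f‖ ≤ ‖T |s - t| f - f‖ := by
  have key : ∀ s t : ℝ, 0 ≤ s → s ≤ t → ‖T s f - T t f‖ ≤ ‖T |s - t| f - f‖ := by
    intro s t hs hst
    have e : T t = (T s).comp (T |s - t|) := by
      rw [← T_add hs (abs_nonneg _), abs_of_nonpos (by linarith)]
      congr 1; ring
    have e2 : T s f - T t f = T s (f - T |s - t| f) := by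
      rw [e, ContinuousLinearMap.comp_apply, map_sub]
    rw [e2]
    refine (norm_T_apply_le s _).trans ?_
    rw [norm_sub_rev]
  rcases le_total s t with h | h
  · exact key s t hs h
  · rw [norm_sub_rev, abs_sub_comm]
    exact key t s ht h

lemma continuousOn_T (f : H) : ContinuousOn (fun t : ℝ => T t f) (Ici 0) := by
  intro t ht
  have ht' : (0:ℝ) ≤ t := ht
  rw [ContinuousWithinAt, tendsto_iff_norm_sub_tendsto_zero]
  have h1 : Tendsto (fun s : ℝ => |s - t|) (𝓝[Ici 0] t) (𝓝[≥] 0) := by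
    apply tendsto_nhdsWithin_of_tendsto_nhds_of_eventually_within
    · have : Tendsto (fun s : ℝ => |s - t|) (𝓝 t) (𝓝 |t - t|) := by
        apply Continuous.tendsto; fun_prop
      rw [sub_self, abs_zero] at this
      exact this.mono_left nhdsWithin_le_nhds
    · exact Eventually.of_forall fun s => (abs_nonneg (s - t) : (0:ℝ) ≤ |s - t|)
  have h2 := (tendsto_T f).comp h1
  have h3 := tendsto_iff_norm_sub_tendsto_zero.1 h2
  refine squeeze_zero' (Eventually.of_forall fun _ => norm_nonneg _) ?_ h3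
  filter_upwards [self_mem_nhdsWithin] with s hs
  exact norm_T_sub_le hs ht' f

/-- The resolvent lower bound with constant `1/2`. -/
lemma resolvent_bound {x y : H}
    (hxy : Tendsto (fun h : ℝ => ((h : ℂ)⁻¹) • (T h x - x)) (𝓝[>] 0) (𝓝 y))
    {μ : ℂ} (hμ : μ.re < 0) : (1 / 2) * |μ.re| * ‖x‖ ≤ ‖μ • x - y‖ := by
  set s : ℝ := -μ.re with hs
  have hs0 : 0 < s := by linarith
  set z : H := y - (μ.im * Complex.I) • x with hz
  have e1 : μ • x - y = -((s : ℂ) • x + z) := by
    have : μ = -(s:ℂ) + μ.im * Complex.I := by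
      apply Complex.ext <;> simp [hs]
    rw [hz]
    nth_rw 1 [this]
    rw [add_smul, neg_smul]
    abel
  have hre : (⟪x, z⟫_ℂ).re = (⟪x, y⟫_ℂ).re := by
    rw [hz, inner_sub_right, inner_smul_right, inner_self_eq_norm_sq_to_K]
    simp [← Complex.ofReal_pow]
  have hQx : (⟪Q x, x⟫_ℂ).im = 0 := by
    have h1 : (starRingEnd ℂ) ⟪Q x, x⟫_ℂ = ⟪Q x, x⟫_ℂ := by
      rw [inner_conj_symm, Q_symm]
    have h2 := congrArg Complex.im h1
    rw [Complex.conj_im] at h2
    linarith
  have hreQ : (⟪Q x, z⟫_ℂ).re = (⟪Q x, y⟫_ℂ).re := by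
    rw [hz, inner_sub_right, inner_smul_right]
    simp [hQx]
  have f1 := form_one hxy
  have f2 := form_two hxy
  have cs1 : (⟪Q x, x⟫_ℂ).re ≤ ‖Q x‖ * ‖x‖ :=
    (Complex.re_le_norm _).trans (norm_inner_le_norm _ _)
  have cs2 : -(⟪Q x, z⟫_ℂ).re ≤ ‖Q x‖ * ‖z‖ := by
    refine le_trans ?_ (norm_inner_le_norm (𝕜 := ℂ) _ _)
    have := Complex.abs_re_le_norm (⟪Q x, z⟫_ℂ)
    exact (neg_le_abs _).trans this
  have hn : ‖(s : ℂ) • x + z‖ ^ 2 = s ^ 2 * ‖x‖ ^ 2 + 2 * s * (⟪x, z⟫_ℂ).re + ‖z‖ ^ 2 := by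
    rw [norm_add_sq (𝕜 := ℂ), norm_smul, inner_smul_left, Complex.norm_real,
      Real.norm_of_nonneg hs0.le, Complex.conj_ofReal]
    have : RCLike.re ((s : ℂ) * ⟪x, z⟫_ℂ) = s * (⟪x, z⟫_ℂ).re := Complex.re_ofReal_mul _ _
    rw [this]; ring
  have hB : 3 / 4 * ‖Q x‖ ≤ ‖z‖ := by
    rcases eq_or_lt_of_le (norm_nonneg (Q x)) with h | h
    · rw [← h]; simp
    · have : (3 / 4) * ‖Q x‖ ^ 2 ≤ ‖Q x‖ * ‖z‖ := by
        rw [hreQ] at cs2; linarith
      nlinarith
  have habs : |μ.re| = s := by rw [abs_of_neg hμ]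
  rw [habs, e1, norm_neg]
  have hX := norm_nonneg x
  have hZ := norm_nonneg z
  have hQ := norm_nonneg (Q x)
  have main : ((1 / 2) * s * ‖x‖) ^ 2 ≤ ‖(s : ℂ) • x + z‖ ^ 2 := by
    rw [hn, hre]
    have h1 : 2 * s * (⟪x, y⟫_ℂ).re ≥ - (s * (‖Q x‖ * ‖x‖)) := by
      have : 2 * s * (⟪x, y⟫_ℂ).re = s * (2 * (⟪x, y⟫_ℂ).re) := by ring
      rw [this, f1]
      have := mul_le_mul_of_nonneg_left cs1 hs0.le
      linarith
    have h2 : (3 / 4 * ‖Q x‖) ^ 2 ≤ ‖z‖ ^ 2 := pow_le_pow_left₀ (by positivity) hB 2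
    nlinarith [sq_nonneg (3 / 4 * ‖Q x‖ - 2 / 3 * (s * ‖x‖)), sq_nonneg (s * ‖x‖)]
  exact le_of_sq_le_sq main (norm_nonneg _)

/-- `T t f → 0` as `t → ∞`. -/
lemma tendsto_T_atTop (f : H) : Tendsto (fun t : ℝ => ‖T t f‖ ^ 2) atTop (𝓝 0) := by
  have h0 : (0 : ℝ) = ∫ x, (0 : ℝ) ∂nu := by simp
  have key : Tendsto (fun t : ℝ => ∫ x, rho t x * ‖f x‖ ^ 2 ∂nu) atTop (𝓝 0) := by
    rw [h0]
    refine tendsto_integral_filter_of_dominated_convergence (fun x => ‖f x‖ ^ 2) ?_ ?_ ?_ ?_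
    · exact Eventually.of_forall fun t =>
        (measurable_rho t).aestronglyMeasurable.mul (integrable_norm_sq f).1
    · filter_upwards [eventually_ge_atTop 0] with t ht
      filter_upwards [ae_pos] with x hx
      rw [norm_mul, Real.norm_of_nonneg (rho_nonneg t x), norm_pow, norm_norm]
      exact mul_le_of_le_one_left (by positivity) (rho_le_one ht hx)
    · exact integrable_norm_sq f
    · filter_upwards [ae_pos] with x hx
      have h1 : Tendsto (fun t : ℝ => (1 + x) / (1 + x + t)) atTop (𝓝 0) := by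
        apply Tendsto.div_atTop tendsto_const_nhds
        exact tendsto_atTop_add_const_left _ _ tendsto_id
      have h2 : Tendsto (fun t : ℝ => rho t x) atTop (𝓝 0) := by
        have := h1.pow 2
        simpa [rho] using this
      simpa using h2.mul_const (‖f x‖ ^ 2)
  refine key.congr' ?_
  filter_upwards [eventually_ge_atTop 0] with t ht
  have := integral_T ht (fun _ => 1) f
  simp only [one_mul] at this
  rw [← this, ← norm_sq_eq]

lemma exists_ne_zero : ∃ f : H, f ≠ 0 := by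
  refine ⟨indicatorConstLp 2 (measurableSet_Ioi (a := (0:ℝ))) (measure_ne_top nu _) (1:ℂ), ?_⟩
  intro h
  have h1 : nu (Ioi 0) ≠ 0 := by
    intro h2
    have h3 : nu = 0 := by
      rw [← Measure.measure_univ_eq_zero]
      have h4 : (univ : Set ℝ) = Ioi 0 ∪ Iic 0 := by
        ext x; simp
      rw [h4]
      refine measure_union_null h2 ?_
      have h5 := ae_pos
      rw [ae_iff] at h5
      convert h5 using 2
      ext x; simp
    have h6 : volume.restrict (Ioi (0:ℝ)) = 0 := by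
      have h7 : (volume.restrict (Ioi (0:ℝ))) ≪ nu := by
        refine withDensity_absolutelyContinuous' measurable_wn.coe_nnreal_ennreal.aemeasurable ?_
        filter_upwards [ae_restrict_mem measurableSet_Ioi] with x hx
        rw [coe_wn]
        have := w_pos hx
        simp [this]
      rw [h3] at h7
      exact Measure.absolutelyContinuous_zero_iff.1 h7
    rw [Measure.restrict_eq_zero] at h6
    simp at h6
  have := (norm_indicatorConstLp (p := 2) (μ := nu) (s := Ioi (0:ℝ)) (hs := measurableSet_Ioi)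
    (hμs := measure_ne_top nu _) (c := (1:ℂ)) (by norm_num) (by norm_num))
  rw [h, norm_zero, norm_one, one_mul] at this
  have h8 : 0 < (nu.real (Ioi 0)) := by
    rw [Measure.real]
    exact ENNReal.toReal_pos h1 (measure_ne_top _ _)
  have h9 : 0 < (nu.real (Ioi 0)) ^ (1 / (2:ℝ≥0∞).toReal) := Real.rpow_pos_of_pos h8 _
  exact absurd this (ne_of_lt h9)

end Pool.Agent.Lib.MP_8a8b2f_an
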