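import Pool.Agent.Lib.MP_8a8b2f_an.Ops

set_option autoImplicit false

open MeasureTheory Set Filter Topology
open scoped ENNReal NNReal InnerProductSpace

noncomputable section

namespace Pool.Agent.Lib.MP_8a8b2f_an

/-- The function `2/(1+x)`, truncated to be bounded on all of `ℝ`. -/
def q (x : ℝ) : ℝ := 2 / (1 + max x 0)

lemma q_nonneg (x : ℝ) : 0 ≤ q x := by unfold q; positivity

lemma q_le (x : ℝ) : q x ≤ 2 := by
  unfold q
  rw [div_le_iff₀ (by positivity)]
  have : 0 ≤ max x 0 := le_max_right _ _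
  linarith

lemma q_eq {x : ℝ} (hx : 0 < x) : q x = 2 / (1 + x) := by
  unfold q; rw [max_eq_left hx.le]

lemma measurable_q : Measurable q := by unfold q; fun_prop

lemma memLp_q (f : H) : MemLp (fun x => (q x : ℂ) * f x) 2 nu := by
  refine (Lp.memLp f).of_le_mul (c := 2) ?_ ?_
  · exact (Complex.measurable_ofReal.comp measurable_q).aestronglyMeasurable.mul
      (Lp.memLp f).1
  · refine Eventually.of_forall fun x => ?_
    rw [norm_mul, Complex.norm_real, Real.norm_of_nonneg (q_nonneg x)]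
    exact mul_le_mul_of_nonneg_right (q_le x) (norm_nonneg _)

/-- Multiplication by `q`. -/
def Q : H →L[ℂ] H :=
  LinearMap.mkContinuous
    { toFun := fun f => (memLp_q f).toLp _
      map_add' := by
        intro f g
        rw [← MemLp.toLp_add]
        refine (MemLp.toLp_eq_toLp_iff _ _).2 ?_
        filter_upwards [Lp.coeFn_add f g] with x hx
        rw [hx]
        simp only [Pi.add_apply]
        ring
      map_smul' := by
        intro c f
        rw [RingHom.id_apply, ← MemLp.toLp_const_smul]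
        refine (MemLp.toLp_eq_toLp_iff _ _).2 ?_
        filter_upwards [Lp.coeFn_smul c f] with x hx
        rw [hx]
        simp only [Pi.smul_apply, smul_eq_mul]
        ring } 2 (by
      intro f
      simp only [LinearMap.coe_mk, AddHom.coe_mk]
      refine Lp.norm_le_mul_norm_of_ae_le_mul ?_
      filter_upwards [MemLp.coeFn_toLp (memLp_q f)] with x hx
      rw [hx, norm_mul, Complex.norm_real, Real.norm_of_nonneg (q_nonneg x)]
      exact mul_le_mul_of_nonneg_right (q_le x) (norm_nonneg _))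

lemma coeFn_Q (f : H) : Q f =ᵐ[nu] fun x => (q x : ℂ) * f x :=
  MemLp.coeFn_toLp (memLp_q f)

lemma re_inner_Q (f : H) : (⟪Q f, f⟫_ℂ).re = ∫ x, q x * ‖f x‖ ^ 2 ∂nu := by
  rw [L2.inner_def]
  have h : ∫ x, ⟪Q f x, f x⟫_ℂ ∂nu = ∫ x, ((q x * ‖f x‖ ^ 2 : ℝ) : ℂ) ∂nu := by
    apply integral_congr_ae
    filter_upwards [coeFn_Q f] with x hx
    rw [hx]
    rw [← smul_eq_mul, inner_smul_left, inner_self_eq_norm_sq_to_K]
    push_cast
    simp
  rw [h, integral_complex_ofReal]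
  simp

lemma Q_symm (f g : H) : ⟪Q f, g⟫_ℂ = ⟪f, Q g⟫_ℂ := by
  rw [L2.inner_def, L2.inner_def]
  apply integral_congr_ae
  filter_upwards [coeFn_Q f, coeFn_Q g] with x hx hy
  rw [hx, hy]
  rw [← smul_eq_mul, ← smul_eq_mul, inner_smul_left, inner_smul_right]
  simp

lemma norm_Q_sq (f : H) : ‖Q f‖ ^ 2 = ∫ x, (q x) ^ 2 * ‖f x‖ ^ 2 ∂nu := by
  rw [norm_sq_eq]
  apply integral_congr_ae
  filter_upwards [coeFn_Q f] with x hx
  rw [hx, norm_mul, Complex.norm_real, Real.norm_of_nonneg (q_nonneg x)]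
  ring

/-- Differentiating `⟨B T_h x, T_h x⟩` at `h = 0`. -/
lemma tendsto_quot (B : H →L[ℂ] H) (hB : ∀ f g, ⟪B f, g⟫_ℂ = ⟪f, B g⟫_ℂ) {x y : H}
    (hxy : Tendsto (fun h : ℝ => ((h : ℂ)⁻¹) • (T h x - x)) (𝓝[>] 0) (𝓝 y)) :
    Tendsto (fun h : ℝ => h⁻¹ * ((⟪B (T h x), T h x⟫_ℂ).re - (⟪B x, x⟫_ℂ).re)) (𝓝[>] 0)
      (𝓝 (2 * (⟪B x, y⟫_ℂ).re)) := by
  have hh : Tendsto (fun h : ℝ => (h : ℂ)) (𝓝[>] 0) (𝓝 0) := by
    have : Tendsto (fun h : ℝ => (h : ℂ)) (𝓝 0) (𝓝 ((0:ℝ):ℂ)) :=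
      (Complex.continuous_ofReal.tendsto 0)
    simpa using this.mono_left nhdsWithin_le_nhds
  have h0 : Tendsto (fun h : ℝ => T h x) (𝓝[>] 0) (𝓝 x) := by
    have h1 := hh.smul hxy
    rw [zero_smul] at h1
    have h2 := h1.add_const x
    rw [zero_add] at h2
    refine h2.congr' ?_
    filter_upwards [self_mem_nhdsWithin] with h hpos
    have hne : (h : ℂ) ≠ 0 := by
      have : (h:ℝ) ≠ 0 := ne_of_gt hpos
      exact_mod_cast this
    rw [smul_smul, mul_inv_cancel₀ hne, one_smul, sub_add_cancel]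
  have h1 : Tendsto (fun h : ℝ => (⟪B (((h : ℂ)⁻¹) • (T h x - x)), T h x⟫_ℂ).re
      + (⟪B x, ((h : ℂ)⁻¹) • (T h x - x)⟫_ℂ).re) (𝓝[>] 0)
      (𝓝 ((⟪B y, x⟫_ℂ).re + (⟪B x, y⟫_ℂ).re)) := by
    refine Tendsto.add ?_ ?_
    · exact (Complex.continuous_re.tendsto _).comp
        (((B.continuous.tendsto y).comp hxy).inner h0)
    · exact (Complex.continuous_re.tendsto _).comp (tendsto_const_nhds.inner hxy)
  have h2 : (⟪B y, x⟫_ℂ).re + (⟪B x, y⟫_ℂ).re = 2 * (⟪B x, y⟫_ℂ).re := by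
    have : (⟪B y, x⟫_ℂ).re = (⟪B x, y⟫_ℂ).re := by
      rw [hB y x, ← inner_conj_symm, Complex.conj_re]
    rw [this]; ring
  rw [h2] at h1
  refine h1.congr' ?_
  filter_upwards [self_mem_nhdsWithin] with h hpos
  have hinv : ((h : ℂ)⁻¹) = ((h⁻¹ : ℝ) : ℂ) := by push_cast; rfl
  rw [hinv, map_smul, inner_smul_left, inner_smul_right, Complex.conj_ofReal,
    Complex.re_ofReal_mul, Complex.re_ofReal_mul, map_sub, inner_sub_left, inner_sub_right]
  simp only [Complex.sub_re]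
  ring

/-- Dominated convergence for the weight quotients. -/
lemma tendsto_weight (f : H) (φ : ℝ → ℝ → ℝ) (ψ : ℝ → ℝ) (C : ℝ)
    (hm : ∀ h, Measurable (φ h))
    (hb : ∀ h, 0 < h → ∀ x, 0 < x → |φ h x| ≤ C)
    (hl : ∀ x, 0 < x → Tendsto (fun h => φ h x) (𝓝[>] 0) (𝓝 (ψ x))) :
    Tendsto (fun h : ℝ => ∫ x, φ h x * ‖f x‖ ^ 2 ∂nu) (𝓝[>] 0)
      (𝓝 (∫ x, ψ x * ‖f x‖ ^ 2 ∂nu)) := by
  refine tendsto_integral_filter_of_dominated_convergence (fun x => C * ‖f x‖ ^ 2) ?_ ?_ ?_ ?_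
  · refine Eventually.of_forall fun h => ?_
    exact (hm h).aestronglyMeasurable.mul (integrable_norm_sq f).1
  · filter_upwards [self_mem_nhdsWithin] with h hpos
    filter_upwards [ae_pos] with x hx
    rw [norm_mul, Real.norm_eq_abs, norm_pow, norm_norm]
    exact mul_le_mul_of_nonneg_right (hb h hpos x hx) (by positivity)
  · exact (integrable_norm_sq f).const_mul C
  · filter_upwards [ae_pos] with x hx
    exact (hl x hx).mul_const _

/-- First form: `2 Re ⟨x, y⟩ = -⟨Q x, x⟩`. -/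
lemma form_one {x y : H}
    (hxy : Tendsto (fun h : ℝ => ((h : ℂ)⁻¹) • (T h x - x)) (𝓝[>] 0) (𝓝 y)) :
    2 * (⟪x, y⟫_ℂ).re = -(⟪Q x, x⟫_ℂ).re := by
  have h1 := tendsto_quot (ContinuousLinearMap.id ℂ H) (fun f g => rfl) hxy
  simp only [ContinuousLinearMap.id_apply] at h1
  have h2 := tendsto_weight x (fun h z => h⁻¹ * (rho h z - 1)) (fun z => - q z) 2
    (fun h => by
      have := measurable_rho h
      fun_prop) ?_ ?_
  · have h3 : (fun h : ℝ => h⁻¹ * ((⟪T h x, T h x⟫_ℂ).re - (⟪x, x⟫_ℂ).re)) =ᶠ[𝓝[>] 0]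
        (fun h : ℝ => ∫ z, (h⁻¹ * (rho h z - 1)) * ‖x z‖ ^ 2 ∂nu) := by
      filter_upwards [self_mem_nhdsWithin] with h hpos
      have hpos' : (0:ℝ) ≤ h := le_of_lt hpos
      have e1 : (⟪T h x, T h x⟫_ℂ).re = ∫ z, rho h z * ‖x z‖ ^ 2 ∂nu := by
        have := integral_T hpos' (fun _ => 1) x
        simp only [one_mul] at this
        rw [← this, ← norm_sq_eq]
        exact inner_self_eq_norm_sq (𝕜 := ℂ) _
      have e2 : (⟪x, x⟫_ℂ).re = ∫ z, ‖x z‖ ^ 2 ∂nu := by
        rw [← norm_sq_eq]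
        exact inner_self_eq_norm_sq (𝕜 := ℂ) _
      have hint : Integrable (fun z => rho h z * ‖x z‖ ^ 2) nu := by
        refine (integrable_norm_sq x).mono' ((measurable_rho h).aestronglyMeasurable.mul
          (integrable_norm_sq x).1) ?_
        filter_upwards [ae_pos] with z hz
        rw [norm_mul, Real.norm_of_nonneg (rho_nonneg h z), norm_pow, norm_norm]
        exact mul_le_of_le_one_left (by positivity) (rho_le_one hpos' hz)
      rw [e1, e2, ← integral_sub hint (integrable_norm_sq x), ← integral_const_mul]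
      congr 1
      ext z
      ring
    have h4 := tendsto_nhds_unique (h1.congr' h3) h2
    rw [h4, re_inner_Q, ← integral_neg]
    congr 1
    ext z
    ring
  · intro h hpos z hz
    have e : h⁻¹ * (rho h z - 1) = -((2 * (1 + z) + h) / (1 + z + h) ^ 2) := by
      unfold rho
      field_simp
      ring
    rw [e, abs_neg, abs_of_nonneg (by positivity), div_le_iff₀ (by positivity)]
    nlinarith
  · intro z hz
    rw [q_eq hz]
    have h3 : Tendsto (fun h : ℝ => -((2 * (1 + z) + h) / (1 + z + h) ^ 2)) (𝓝[>] 0)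
        (𝓝 (-((2 * (1 + z) + 0) / (1 + z + 0) ^ 2))) := by
      apply tendsto_nhdsWithin_of_tendsto_nhds
      apply ContinuousAt.tendsto
      have : (1 + z + 0) ^ 2 ≠ 0 := by positivity
      fun_prop (disch := assumption)
    have e2 : -((2 * (1 + z) + 0) / (1 + z + 0) ^ 2) = - (2 / (1 + z)) := by
      field_simp
      ring
    rw [e2] at h3
    refine h3.congr' ?_
    filter_upwards [self_mem_nhdsWithin] with h hpos
    have hpos' : (0:ℝ) < h := hpos
    unfold rho
    field_simp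
    ring

/-- Second form: `2 Re ⟨Q x, y⟩ = -(3/2) ‖Q x‖²`. -/
lemma form_two {x y : H}
    (hxy : Tendsto (fun h : ℝ => ((h : ℂ)⁻¹) • (T h x - x)) (𝓝[>] 0) (𝓝 y)) :
    2 * (⟪Q x, y⟫_ℂ).re = -(3 / 2) * ‖Q x‖ ^ 2 := by
  have h1 := tendsto_quot Q Q_symm hxy
  have h2 := tendsto_weight x (fun h z => h⁻¹ * (q (z + h) * rho h z - q z))
    (fun z => - ((3 / 2) * (q z) ^ 2)) 6
    (fun h => by
      have := measurable_rho h
      have := measurable_q
      fun_prop) ?_ ?_
  · have h3 : (fun h : ℝ => h⁻¹ * ((⟪Q (T h x), T h x⟫_ℂ).re - (⟪Q x, x⟫_ℂ).re)) =ᶠ[𝓝[>] 0]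
        (fun h : ℝ => ∫ z, (h⁻¹ * (q (z + h) * rho h z - q z)) * ‖x z‖ ^ 2 ∂nu) := by
      filter_upwards [self_mem_nhdsWithin] with h hpos
      have hpos' : (0:ℝ) ≤ h := le_of_lt hpos
      have e1 : (⟪Q (T h x), T h x⟫_ℂ).re = ∫ z, q (z + h) * rho h z * ‖x z‖ ^ 2 ∂nu := by
        rw [re_inner_Q, integral_T hpos' q x]
      have e2 : (⟪Q x, x⟫_ℂ).re = ∫ z, q z * ‖x z‖ ^ 2 ∂nu := re_inner_Q x
      have hint : Integrable (fun z => q (z + h) * rho h z * ‖x z‖ ^ 2) nu := by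
        refine ((integrable_norm_sq x).const_mul 2).mono'
          (((measurable_q.comp (measurable_id.add_const h)).mul
            (measurable_rho h)).aestronglyMeasurable.mul (integrable_norm_sq x).1) ?_
        filter_upwards [ae_pos] with z hz
        rw [norm_mul, norm_mul, Real.norm_of_nonneg (rho_nonneg h z),
          Real.norm_of_nonneg (q_nonneg _), norm_pow, norm_norm]
        apply mul_le_mul_of_nonneg_right _ (by positivity)
        calc q (z + h) * rho h z ≤ 2 * 1 :=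
              mul_le_mul (q_le _) (rho_le_one hpos' hz) (rho_nonneg _ _) (by norm_num)
          _ = 2 := by norm_num
      have hint2 : Integrable (fun z => q z * ‖x z‖ ^ 2) nu := by
        refine ((integrable_norm_sq x).const_mul 2).mono'
          (measurable_q.aestronglyMeasurable.mul (integrable_norm_sq x).1) ?_
        refine Eventually.of_forall fun z => ?_
        rw [norm_mul, Real.norm_of_nonneg (q_nonneg _), norm_pow, norm_norm]
        exact mul_le_mul_of_nonneg_right (q_le _) (by positivity)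
      rw [e1, e2, ← integral_sub hint hint2, ← integral_const_mul]
      congr 1
      ext z
      ring
    have h4 := tendsto_nhds_unique (h1.congr' h3) h2
    rw [h4, norm_Q_sq, ← integral_const_mul]
    congr 1
    ext z
    ring
  · intro h hpos z hz
    have e : h⁻¹ * (q (z + h) * rho h z - q z)
        = -(2 * ((1 + z) ^ 2 + (1 + z) * (1 + z + h) + (1 + z + h) ^ 2) /
          ((1 + z) * (1 + z + h) ^ 3)) := by
      rw [q_eq hz, q_eq (by linarith : 0 < z + h)]
      unfold rho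
      have : (1 + (z + h)) = 1 + z + h := by ring
      rw [this]
      field_simp
      ring
    rw [e, abs_neg, abs_of_nonneg (by positivity), div_le_iff₀ (by positivity)]
    have h5 : 1 ≤ (1 + z) * (1 + z + h) := by nlinarith
    have h6 : (1 + z) ^ 2 + (1 + z) * (1 + z + h) + (1 + z + h) ^ 2 ≤ 3 * (1 + z + h) ^ 2 := by
      nlinarith
    calc 2 * ((1 + z) ^ 2 + (1 + z) * (1 + z + h) + (1 + z + h) ^ 2)
        ≤ 2 * (3 * (1 + z + h) ^ 2) := by linarith
      _ = 6 * (1 * (1 + z + h) ^ 2) := by ring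
      _ ≤ 6 * (((1 + z) * (1 + z + h)) * (1 + z + h) ^ 2) := by gcongr
      _ = 6 * ((1 + z) * (1 + z + h) ^ 3) := by ring
  · intro z hz
    rw [q_eq hz]
    have h3 : Tendsto (fun h : ℝ => -(2 * ((1 + z) ^ 2 + (1 + z) * (1 + z + h) + (1 + z + h) ^ 2) /
          ((1 + z) * (1 + z + h) ^ 3))) (𝓝[>] 0)
        (𝓝 (-(2 * ((1 + z) ^ 2 + (1 + z) * (1 + z + 0) + (1 + z + 0) ^ 2) /
          ((1 + z) * (1 + z + 0) ^ 3)))) := by
      apply tendsto_nhdsWithin_of_tendsto_nhds
      apply ContinuousAt.tendsto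
      have : ((1 + z) * (1 + z + 0) ^ 3) ≠ 0 := by positivity
      fun_prop (disch := assumption)
    have e2 : (-(2 * ((1 + z) ^ 2 + (1 + z) * (1 + z + 0) + (1 + z + 0) ^ 2) /
          ((1 + z) * (1 + z + 0) ^ 3))) = -(3 / 2 * (2 / (1 + z)) ^ 2) := by
      field_simp
      ring
    rw [e2] at h3
    refine h3.congr' ?_
    filter_upwards [self_mem_nhdsWithin] with h hpos
    have hpos' : (0:ℝ) < h := hpos
    rw [q_eq (by linarith : 0 < z + h)]
    unfold rho
    have : (1 + (z + h)) = 1 + z + h := by ring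
    rw [this]
    field_simp
    ring

end Pool.Agent.Lib.MP_8a8b2f_an
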