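import Mathlib

set_option autoImplicit false

open MeasureTheory Set Filter Topology
open scoped ENNReal NNReal

noncomputable section

namespace Pool.Agent.Lib.MP_8a8b2f_an

/-- The weight `(1 + x)⁻²`. -/
def w (x : ℝ) : ℝ := ((1 + x) ^ 2)⁻¹

lemma w_nonneg (x : ℝ) : 0 ≤ w x := by unfold w; positivity

lemma w_pos {x : ℝ} (hx : 0 < x) : 0 < w x := by unfold w; positivity

lemma measurable_w : Measurable w := by unfold w; fun_prop

/-- The weight as a nonnegative real. -/
def wn (x : ℝ) : ℝ≥0 := ⟨w x, w_nonneg x⟩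

lemma measurable_wn : Measurable wn := measurable_w.subtype_mk

lemma coe_wn (x : ℝ) : (wn x : ℝ≥0∞) = ENNReal.ofReal (w x) := by
  rw [ENNReal.ofReal]
  congr 1
  ext
  rw [Real.coe_toNNReal _ (w_nonneg x)]
  rfl

lemma measurable_shift (t : ℝ) : Measurable (fun x : ℝ => x - t) := by fun_prop

/-- The measure `(1+x)⁻² dx` on `(0, ∞)`. -/
def nu : Measure ℝ := (volume.restrict (Ioi (0 : ℝ))).withDensity (fun x => (wn x : ℝ≥0∞))

lemma integrableOn_w : IntegrableOn w (Ioi 0) volume := by
  have h : Integrable (fun x : ℝ => (1 + x ^ 2)⁻¹) := integrable_inv_one_add_sq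
  refine (h.integrableOn (s := Ioi 0)).mono' measurable_w.aestronglyMeasurable ?_
  refine (ae_restrict_mem measurableSet_Ioi).mono ?_
  intro x hx
  have hx' : 0 < x := hx
  rw [Real.norm_of_nonneg (w_nonneg x)]
  unfold w
  apply inv_anti₀ (by positivity)
  nlinarith

instance : IsFiniteMeasure nu := by
  refine isFiniteMeasure_withDensity ?_
  have h := integrableOn_w
  have h2 : ∫⁻ x in Ioi (0:ℝ), (wn x : ℝ≥0∞) = ∫⁻ x in Ioi (0:ℝ), ‖w x‖ₑ := by
    congr 1
    ext x
    rw [← ofReal_norm, Real.norm_of_nonneg (w_nonneg x)]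
    rw [coe_wn]
  rw [h2]
  exact h.2.ne

/-- ratio of weights -/
def rho (t x : ℝ) : ℝ := ((1 + x) / (1 + x + t)) ^ 2

lemma rho_nonneg (t x : ℝ) : 0 ≤ rho t x := by unfold rho; positivity

lemma measurable_rho (t : ℝ) : Measurable (rho t) := by unfold rho; fun_prop

lemma rho_le_one {t x : ℝ} (ht : 0 ≤ t) (hx : 0 < x) : rho t x ≤ 1 := by
  unfold rho
  have h1 : (1 + x) / (1 + x + t) ≤ 1 := by
    rw [div_le_one (by positivity)]; linarith
  have h0 : 0 ≤ (1 + x) / (1 + x + t) := by positivity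
  nlinarith

lemma w_add {t x : ℝ} (ht : 0 ≤ t) (hx : 0 < x) : w (x + t) = w x * rho t x := by
  unfold w rho
  field_simp
  ring

/-- Change of variables for Bochner integrals. -/
lemma integral_shift {t : ℝ} (ht : 0 ≤ t) (G : ℝ → ℝ) :
    ∫ x, (Ioi t).indicator (fun y => G (y - t)) x ∂nu = ∫ x, rho t x * G x ∂nu := by
  unfold nu
  rw [integral_withDensity_eq_integral_smul measurable_wn,
    integral_withDensity_eq_integral_smul measurable_wn]
  rw [← integral_indicator measurableSet_Ioi, ← integral_indicator measurableSet_Ioi]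
  rw [← integral_add_right_eq_self _ t]
  congr 1
  ext x
  by_cases hx : 0 < x
  · have h1 : x + t ∈ Ioi (0:ℝ) := by simp only [mem_Ioi]; linarith
    have h2 : x + t ∈ Ioi t := by simp only [mem_Ioi]; linarith
    have h3 : x ∈ Ioi (0:ℝ) := hx
    rw [indicator_of_mem h1, indicator_of_mem h2, indicator_of_mem h3]
    simp only [NNReal.smul_def, smul_eq_mul, add_sub_cancel_right]
    show w (x + t) * G x = w x * (rho t x * G x)
    rw [w_add ht hx]; ring
  · have h2 : x + t ∉ Ioi t := by simp only [mem_Ioi]; linarith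
    have h3 : x ∉ Ioi (0:ℝ) := hx
    rw [indicator_of_notMem h3]
    by_cases h1 : x + t ∈ Ioi (0:ℝ)
    · rw [indicator_of_mem h1, indicator_of_notMem h2, smul_zero]
    · rw [indicator_of_notMem h1]

lemma lintegral_shift {t : ℝ} (ht : 0 ≤ t) (G : ℝ → ℝ≥0∞) (hG : Measurable G) :
    ∫⁻ x, (Ioi t).indicator (fun y => G (y - t)) x ∂nu
      = ∫⁻ x, ENNReal.ofReal (rho t x) * G x ∂nu := by
  unfold nu
  rw [lintegral_withDensity_eq_lintegral_mul _ (measurable_wn.coe_nnreal_ennreal)
      (show Measurable (fun x => (Ioi t).indicator (fun y => G (y - t)) x) from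
        (hG.comp (measurable_shift t)).indicator measurableSet_Ioi),
    lintegral_withDensity_eq_lintegral_mul _ (measurable_wn.coe_nnreal_ennreal)
      (show Measurable (fun x => ENNReal.ofReal (rho t x) * G x) from
        (measurable_rho t).ennreal_ofReal.mul hG)]
  rw [← lintegral_indicator measurableSet_Ioi, ← lintegral_indicator measurableSet_Ioi]
  rw [← lintegral_add_right_eq_self _ t]
  congr 1
  ext x
  by_cases hx : 0 < x
  · have h1 : x + t ∈ Ioi (0:ℝ) := by simp only [mem_Ioi]; linarith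
    have h2 : x + t ∈ Ioi t := by simp only [mem_Ioi]; linarith
    have h3 : x ∈ Ioi (0:ℝ) := hx
    rw [indicator_of_mem h1, indicator_of_mem h3]
    simp only [Pi.mul_apply]
    rw [indicator_of_mem h2]
    simp only [add_sub_cancel_right]
    rw [← mul_assoc]
    congr 1
    rw [coe_wn, coe_wn, w_add ht hx, ENNReal.ofReal_mul (w_nonneg x)]
  · have h2 : x + t ∉ Ioi t := by simp only [mem_Ioi]; linarith
    have h3 : x ∉ Ioi (0:ℝ) := hx
    rw [indicator_of_notMem h3]
    by_cases h1 : x + t ∈ Ioi (0:ℝ)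
    · rw [indicator_of_mem h1]
      simp only [Pi.mul_apply]
      rw [indicator_of_notMem h2, mul_zero]
    · rw [indicator_of_notMem h1]

lemma ae_pos : ∀ᵐ x ∂nu, 0 < x := by
  have h : ∀ᵐ x ∂(volume.restrict (Ioi (0 : ℝ))), 0 < x := ae_restrict_mem measurableSet_Ioi
  exact (withDensity_absolutelyContinuous _ _).ae_le h

lemma map_le {t : ℝ} (ht : 0 ≤ t) :
    (nu.restrict (Ioi t)).map (fun x => x - t) ≤ nu := by
  refine Measure.le_iff.2 fun s hs => ?_
  rw [Measure.map_apply (measurable_shift t) hs]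
  have hpre : MeasurableSet ((fun x : ℝ => x - t) ⁻¹' s) := (measurable_shift t) hs
  rw [Measure.restrict_apply hpre]
  rw [← lintegral_indicator_one (hpre.inter measurableSet_Ioi)]
  have := lintegral_shift ht (s.indicator 1) (measurable_one.indicator hs)
  have e : (fun x => (Ioi t).indicator (fun y => s.indicator (1 : ℝ → ℝ≥0∞) (y - t)) x)
      = ((fun x : ℝ => x - t) ⁻¹' s ∩ Ioi t).indicator 1 := by
    ext x
    by_cases h2 : x ∈ Ioi t <;> by_cases h1 : x - t ∈ s <;> simp_all [indicator]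
  rw [e] at this
  rw [this, ← lintegral_indicator_one hs]
  refine lintegral_mono_ae ?_
  filter_upwards [ae_pos] with x hx
  calc ENNReal.ofReal (rho t x) * s.indicator 1 x ≤ 1 * s.indicator 1 x := by
        gcongr
        exact ENNReal.ofReal_le_one.2 (rho_le_one ht hx)
    _ = s.indicator 1 x := one_mul _

end Pool.Agent.Lib.MP_8a8b2f_an
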