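import Pool.Agent.Lib.MP_8a8b2f_an.Model

set_option autoImplicit false

open MeasureTheory Set Filter Topology
open scoped ENNReal NNReal InnerProductSpace

noncomputable section

namespace Pool.Agent.Lib.MP_8a8b2f_an

/-- The Hilbert space `L²((0,∞), (1+x)⁻² dx)`. -/
abbrev H := Lp ℂ 2 nu

/-- Right translation by `t`, extended by zero. -/
def sh (t : ℝ) (f : ℝ → ℂ) : ℝ → ℂ := (Ioi t).indicator (fun x => f (x - t))

lemma sh_congr {t : ℝ} (ht : 0 ≤ t) {f g : ℝ → ℂ} (h : f =ᵐ[nu] g) :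
    sh t f =ᵐ[nu] sh t g := by
  have h1 : f =ᵐ[(nu.restrict (Ioi t)).map (fun x => x - t)] g :=
    (Measure.absolutelyContinuous_of_le (map_le ht)).ae_le h
  have h2 : ∀ᵐ x ∂(nu.restrict (Ioi t)), f (x - t) = g (x - t) :=
    ae_of_ae_map (measurable_shift t).aemeasurable h1
  rw [ae_restrict_iff' measurableSet_Ioi] at h2
  filter_upwards [h2] with x hx
  unfold sh
  by_cases hxt : x ∈ Ioi t
  · rw [indicator_of_mem hxt, indicator_of_mem hxt, hx hxt]
  · rw [indicator_of_notMem hxt, indicator_of_notMem hxt]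

lemma memLp_sh {t : ℝ} (ht : 0 ≤ t) {f : ℝ → ℂ} (hf : MemLp f 2 nu) : MemLp (sh t f) 2 nu := by
  have h1 : MemLp f 2 ((nu.restrict (Ioi t)).map (fun x => x - t)) := hf.mono_measure (map_le ht)
  have h2 : MemLp (f ∘ fun x => x - t) 2 (nu.restrict (Ioi t)) := by
    rw [memLp_map_measure_iff h1.1 (measurable_shift t).aemeasurable] at h1
    exact h1
  exact (memLp_indicator_iff_restrict measurableSet_Ioi).2 h2

lemma eLpNorm_sh_le {t : ℝ} (ht : 0 ≤ t) {f : ℝ → ℂ} (hf : MemLp f 2 nu) :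
    eLpNorm (sh t f) 2 nu ≤ eLpNorm f 2 nu := by
  have h1 : MemLp f 2 ((nu.restrict (Ioi t)).map (fun x => x - t)) := hf.mono_measure (map_le ht)
  unfold sh
  rw [eLpNorm_indicator_eq_eLpNorm_restrict measurableSet_Ioi]
  calc eLpNorm (fun x => f (x - t)) 2 (nu.restrict (Ioi t))
      = eLpNorm f 2 ((nu.restrict (Ioi t)).map (fun x => x - t)) :=
        (eLpNorm_map_measure h1.1 (measurable_shift t).aemeasurable).symm
    _ ≤ eLpNorm f 2 nu := eLpNorm_mono_measure _ (map_le ht)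

/-- The translation semigroup. -/
def T (t : ℝ) : H →L[ℂ] H :=
  LinearMap.mkContinuous
    { toFun := fun f => (memLp_sh (le_max_right t 0) (Lp.memLp f)).toLp _
      map_add' := by
        intro f g
        rw [← MemLp.toLp_add]
        refine (MemLp.toLp_eq_toLp_iff _ _).2 ?_
        refine (sh_congr (le_max_right t 0) (Lp.coeFn_add f g)).trans ?_
        refine Eventually.of_forall fun x => ?_
        simp only [sh, Pi.add_apply, indicator]
        split_ifs <;> simp
      map_smul' := by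
        intro c f
        rw [RingHom.id_apply, ← MemLp.toLp_const_smul]
        refine (MemLp.toLp_eq_toLp_iff _ _).2 ?_
        refine (sh_congr (le_max_right t 0) (Lp.coeFn_smul c f)).trans ?_
        refine Eventually.of_forall fun x => ?_
        simp only [sh, Pi.smul_apply, indicator]
        split_ifs <;> simp } 1 (by
      intro f
      rw [one_mul]
      simp only [LinearMap.coe_mk, AddHom.coe_mk]
      rw [Lp.norm_toLp, Lp.norm_def]
      exact ENNReal.toReal_mono (Lp.eLpNorm_ne_top f) (eLpNorm_sh_le (le_max_right t 0) (Lp.memLp f)))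

lemma coeFn_T {t : ℝ} (ht : 0 ≤ t) (f : H) : T t f =ᵐ[nu] sh t f := by
  have h : T t f = (memLp_sh (le_max_right t 0) (Lp.memLp f)).toLp _ := rfl
  rw [h]
  refine (MemLp.coeFn_toLp _).trans ?_
  rw [max_eq_left ht]

lemma T_zero : T 0 = ContinuousLinearMap.id ℂ H := by
  ext1 f
  apply Lp.ext
  refine (coeFn_T le_rfl f).trans ?_
  filter_upwards [ae_pos] with x hx
  simp [sh, indicator, hx]

lemma T_add {s t : ℝ} (hs : 0 ≤ s) (ht : 0 ≤ t) : T (s + t) = (T s).comp (T t) := by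
  ext1 f
  apply Lp.ext
  refine (coeFn_T (add_nonneg hs ht) f).trans ?_
  rw [ContinuousLinearMap.comp_apply]
  refine EventuallyEq.symm ?_
  refine (coeFn_T hs _).trans ?_
  refine (sh_congr hs (coeFn_T ht f)).trans ?_
  refine Eventually.of_forall fun x => ?_
  simp only [sh, indicator, mem_Ioi]
  by_cases h1 : s < x
  · by_cases h2 : t < x - s
    · rw [if_pos h1, if_pos h2, if_pos (by linarith)]
      congr 1; ring
    · rw [if_pos h1, if_neg h2, if_neg (by linarith)]
  · rw [if_neg h1, if_neg (by linarith)]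

lemma norm_T_le (t : ℝ) : ‖T t‖ ≤ 1 :=
  LinearMap.mkContinuous_norm_le _ zero_le_one _

lemma norm_T_apply_le (t : ℝ) (f : H) : ‖T t f‖ ≤ ‖f‖ := by
  simpa using (T t).le_of_opNorm_le (norm_T_le t) f

lemma norm_sq_eq (F : H) : ‖F‖ ^ 2 = ∫ x, ‖F x‖ ^ 2 ∂nu := by
  rw [← @inner_self_eq_norm_sq ℂ, L2.inner_def]
  have : ∀ x, ⟪F x, F x⟫_ℂ = ((‖F x‖ ^ 2 : ℝ) : ℂ) := by
    intro x
    rw [inner_self_eq_norm_sq_to_K]; push_cast; rfl
  simp_rw [this]
  rw [integral_complex_ofReal]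
  simp

lemma integrable_norm_sq (F : H) : Integrable (fun x => ‖F x‖ ^ 2) nu :=
  (memLp_two_iff_integrable_sq_norm (Lp.memLp F).1).1 (Lp.memLp F)

/-- the basic integral identity -/
lemma integral_T {t : ℝ} (ht : 0 ≤ t) (φ : ℝ → ℝ) (f : H) :
    ∫ x, φ x * ‖T t f x‖ ^ 2 ∂nu = ∫ x, φ (x + t) * rho t x * ‖f x‖ ^ 2 ∂nu := by
  have h1 : ∫ x, φ x * ‖T t f x‖ ^ 2 ∂nu
      = ∫ x, (Ioi t).indicator (fun y => φ (y - t + t) * ‖f (y - t)‖ ^ 2) x ∂nu := by
    apply integral_congr_ae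
    filter_upwards [coeFn_T ht f] with x hx
    rw [hx]
    unfold sh
    by_cases hxt : x ∈ Ioi t
    · rw [indicator_of_mem hxt, indicator_of_mem hxt, sub_add_cancel]
    · rw [indicator_of_notMem hxt, indicator_of_notMem hxt]; simp
  rw [h1, integral_shift ht (fun y => φ (y + t) * ‖f y‖ ^ 2)]
  congr 1
  ext x
  ring

end Pool.Agent.Lib.MP_8a8b2f_an
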